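import Pool.Agent.Results.MP_a12702_lc.GenericQuantifiers
import Pool.Agent.TH94.MK.Sep

/-!
# Quasiminimality for functions with singularities

The starting results on this problem treat sets which are definable from zero sets of ENTIRE functions. Here we add
partial analytic maps: if `Z` is a closed set of the family and `h` is analytic outside `Z`, then the preimage
`{s ∉ Z : h s ∈ X}` of every set `X` of the family is in the family. So all terms may contain meromorphic functions, like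
the Gamma function, the zeta function, Weierstrass functions, functions with essential singularities at the points
of a closed countable set, quotients of entire functions of several variables, functions of several variables which are
analytic outside a closed set defined by formulas of the same kind, and all compositions of them; the quantifiers are
those of the starting result `GenericQuantifiers`.

Proof. On an analytic curve `γ` on a connected open set `U` the set `γ ⁻¹ Z` is either cocountable (then there is nothing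
to prove) or countable and closed in `U`. In the second case each disc in `U` remains connected without this set
(`Pool.Agent.TH94.MK.preconn`), so `X` has a countable or cocountable trace on the curve `h ∘ γ` on this disc, and
the alternative is the same for all discs because `U` is connected.
-/

set_option autoImplicit false

namespace Pool.Agent.Results.MP_a12702_lc.PartialAnalyticMaps

open Set Metric Cardinal MeasureTheory Topology Pool.Agent.TH735.QM Pool.Agent.TH735.FO

/-- a disc is not countable -/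
lemma ball_not_countable (x : ℂ) {r : ℝ} (hr : 0 < r) : ¬ (ball x r).Countable := by
  intro h
  have h1 : volume (ball x r) = 0 := h.measure_zero volume
  have h2 : 0 < volume (ball x r) := isOpen_ball.measure_pos volume ⟨x, mem_ball_self hr⟩
  exact h2.ne' h1

/-- the alternative is local -/
lemma qm_of_local {U S : Set ℂ} (hUc : IsPreconnected U)
    (h : ∀ x ∈ U, ∃ r > 0, ball x r ⊆ U ∧ QmOn (ball x r) S) : QmOn U S := by
  have key : ∀ T : Set ℂ, IsOpen {x : ℂ | ∃ r > 0, ball x r ⊆ U ∧ (ball x r ∩ T).Countable} := by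
    intro T
    rw [Metric.isOpen_iff]
    rintro x ⟨r, hr, hrU, hc⟩
    refine ⟨r, hr, fun y hy => ?_⟩
    have hsub : ball y (r - dist y x) ⊆ ball x r := ball_subset_ball' (by linarith)
    exact ⟨r - dist y x, sub_pos.2 (mem_ball.1 hy), hsub.trans hrU,
      hc.mono (inter_subset_inter_left _ hsub)⟩
  have glob : ∀ T : Set ℂ, U ⊆ {x : ℂ | ∃ r > 0, ball x r ⊆ U ∧ (ball x r ∩ T).Countable} →
      (U ∩ T).Countable := by
    intro T hT
    have hT' : ∀ x ∈ U, ∃ r > 0, ball x r ⊆ U ∧ (ball x r ∩ T).Countable := fun x hx => hT hx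
    choose! r hr hrU hrc using hT'
    obtain ⟨t, htU, htc, htc2⟩ := TopologicalSpace.countable_cover_nhdsWithin
      (s := U) (f := fun x => ball x (r x)) fun x hx => mem_nhdsWithin_of_mem_nhds (ball_mem_nhds x (hr x hx))
    refine (htc.biUnion fun x hx => hrc x (htU hx)).mono ?_
    rintro z ⟨hzU, hzT⟩
    obtain ⟨x, hx, hzx⟩ := mem_iUnion₂.1 (htc2 hzU)
    exact mem_iUnion₂.2 ⟨x, hx, hzx, hzT⟩
  have hdis : Disjoint {x : ℂ | ∃ r > 0, ball x r ⊆ U ∧ (ball x r ∩ S).Countable}
      {x : ℂ | ∃ r > 0, ball x r ⊆ U ∧ (ball x r ∩ Sᶜ).Countable} := by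
    rw [Set.disjoint_left]
    rintro x ⟨r, hr, -, h1⟩ ⟨r', hr', -, h2⟩
    refine ball_not_countable x (lt_min hr hr') ((h1.union h2).mono fun z hz => ?_)
    by_cases hzS : z ∈ S
    · exact Or.inl ⟨ball_subset_ball (min_le_left _ _) hz, hzS⟩
    · exact Or.inr ⟨ball_subset_ball (min_le_right _ _) hz, hzS⟩
  have hcov : U ⊆ {x : ℂ | ∃ r > 0, ball x r ⊆ U ∧ (ball x r ∩ S).Countable} ∪
      {x : ℂ | ∃ r > 0, ball x r ⊆ U ∧ (ball x r ∩ Sᶜ).Countable} := by
    intro x hx
    obtain ⟨r, hr, hrU, h1 | h1⟩ := h x hx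
    · exact Or.inl ⟨r, hr, hrU, h1⟩
    · exact Or.inr ⟨r, hr, hrU, h1⟩
  by_cases hne : (U ∩ {x : ℂ | ∃ r > 0, ball x r ⊆ U ∧ (ball x r ∩ S).Countable}).Nonempty
  · exact Or.inl (glob S (hUc.subset_left_of_subset_union (key S) (key Sᶜ) hdis hcov hne))
  · right
    have h1 : U ⊆ {x : ℂ | ∃ r > 0, ball x r ⊆ U ∧ (ball x r ∩ Sᶜ).Countable} := by
      intro x hx
      rcases hcov hx with h2 | h2
      · exact absurd ⟨x, hx, h2⟩ hne
      · exact h2
    refine (glob Sᶜ h1).mono ?_
    rintro z ⟨h2, h3⟩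
    exact ⟨h2, h3⟩

/-- partial preimages of curve-regular sets are curve-regular -/
theorem CQ_partial {m n : ℕ} {Z : Set (Fin n → ℂ)} (hZ : CQ n Z) (hZc : IsClosed Z)
    {h : (Fin n → ℂ) → (Fin m → ℂ)} (hh : AnalyticOnNhd ℂ h Zᶜ) {X : Set (Fin m → ℂ)} (hX : CQ m X) :
    CQ n {s | s ∉ Z ∧ h s ∈ X} := by
  intro U hU hUc γ hγ
  rcases hZ U hU hUc γ hγ with h1 | h1
  · apply qm_of_local hUc
    intro x hx
    obtain ⟨r, hr, hrU⟩ := Metric.isOpen_iff.1 hU x hx
    refine ⟨r, hr, hrU, ?_⟩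
    have hcont : ContinuousOn γ (ball x r) := fun t ht => (hγ t (hrU ht)).continuousAt.continuousWithinAt
    have hVeq : ball x r \ (U ∩ γ ⁻¹' Z) = ball x r ∩ γ ⁻¹' Zᶜ := by
      ext t
      constructor
      · rintro ⟨ht, h2⟩
        exact ⟨ht, fun h3 => h2 ⟨hrU ht, h3⟩⟩
      · rintro ⟨ht, h2⟩
        exact ⟨ht, fun h3 => h2 h3.2⟩
    have hV : IsOpen (ball x r \ (U ∩ γ ⁻¹' Z)) := by
      rw [hVeq]
      exact hcont.isOpen_inter_preimage isOpen_ball hZc.isOpen_compl
    have hVc : IsPreconnected (ball x r \ (U ∩ γ ⁻¹' Z)) := by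
      apply Pool.Agent.TH94.MK.preconn isOpen_ball (convex_ball x r)
      have h2 : ((Module.finrank ℝ ℂ : ℝ) - 1) = 1 := by
        rw [Complex.finrank_real_complex]
        norm_num
      rw [h2]
      have := Measure.nullSingletonClass_hausdorff ℂ (one_pos : (0 : ℝ) < 1)
      exact h1.measure_zero _
    have han : AnalyticOnNhd ℂ (fun t => h (γ t)) (ball x r \ (U ∩ γ ⁻¹' Z)) := by
      intro t ht
      have h2 : t ∈ ball x r ∩ γ ⁻¹' Zᶜ := hVeq ▸ ht
      exact (hh (γ t) h2.2).comp (hγ t (hrU h2.1))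
    rcases hX _ hV hVc (fun t => h (γ t)) han with h2 | h2
    · left
      refine h2.mono ?_
      rintro t ⟨ht, ht2⟩
      exact ⟨⟨ht, fun h3 => ht2.1 h3.2⟩, ht2.2⟩
    · right
      refine (h2.union h1).mono ?_
      rintro t ⟨ht, ht2⟩
      by_cases h3 : γ t ∈ Z
      · exact Or.inr ⟨hrU ht, h3⟩
      · exact Or.inl ⟨⟨ht, fun h4 => h3 h4.2⟩, fun h4 => ht2 ⟨h3, h4⟩⟩
  · left
    refine h1.mono ?_
    rintro t ⟨ht, ht2⟩
    exact ⟨ht, ht2.1⟩

/-- partial preimages of Borel sets are Borel sets -/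
lemma meas_partial {m n : ℕ} {Z : Set (Fin n → ℂ)} (hZc : IsClosed Z) {h : (Fin n → ℂ) → (Fin m → ℂ)}
    (hh : AnalyticOnNhd ℂ h Zᶜ) {X : Set (Fin m → ℂ)} (hX : MeasurableSet X) :
    MeasurableSet {s | s ∉ Z ∧ h s ∈ X} := by
  have h1 : Continuous (Zᶜ.domRestrict h) := continuousOn_iff_continuous_domRestrict.1 hh.continuousOn
  have h2 : MeasurableSet (Subtype.val '' ((Zᶜ.domRestrict h) ⁻¹' X)) :=
    (MeasurableEmbedding.subtype_coe hZc.isOpen_compl.measurableSet).measurableSet_image.2 (h1.measurable hX)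
  convert h2 using 1
  ext s
  constructor
  · rintro ⟨h3, h4⟩
    exact ⟨⟨s, h3⟩, h4, rfl⟩
  · rintro ⟨⟨t, h3⟩, h4, rfl⟩
    exact ⟨h3, h4⟩

/-- The closure conditions of `GenericQuantifiers` (zero sets of entire functions, complements, countable unions,
preimages under entire maps, guarded quantifiers, counting quantifiers, admissible equations in several unknowns,
unguarded quantifiers for uncountably many `x` and for measures), and preimages under partial analytic maps. -/
structure Closed (𝒟 : (m : ℕ) → Set (Set (Fin m → ℂ))) : Prop extends GenericQuantifiers.Closed 𝒟 where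
  /-- `Z` is a closed set of the family, `h` is analytic outside `Z` -/
  partialPreimage : ∀ (m n : ℕ) (Z : Set (Fin n → ℂ)), IsClosed Z → Z ∈ 𝒟 n → ∀ h : (Fin n → ℂ) → (Fin m → ℂ),
    AnalyticOnNhd ℂ h Zᶜ → ∀ X ∈ 𝒟 m, {s | s ∉ Z ∧ h s ∈ X} ∈ 𝒟 n

theorem closed_CQ : Closed (fun m => {X | CQ m X ∧ MeasurableSet X}) where
  toClosed := GenericQuantifiers.closed_CQ
  partialPreimage := fun _ _ _ hZc hZ _ hh _ hX => ⟨CQ_partial hZ.1 hZc hh hX.1, meas_partial hZc hh hX.2⟩

/-- For `m = 1` all countable sets are in the family, so `Z` can be any countable closed set of complex numbers. -/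
theorem countable_mem {𝒟 : (m : ℕ) → Set (Set (Fin m → ℂ))} (h𝒟 : Closed 𝒟) {Z : Set ℂ} (hZ : Z.Countable) :
    {v : Fin 1 → ℂ | v 0 ∈ Z} ∈ 𝒟 1 := by
  have h0 : ∀ a : ℂ, {v : Fin 1 → ℂ | v 0 = a} ∈ 𝒟 1 := by
    intro a
    have h1 : AnalyticOnNhd ℂ (fun v : Fin 1 → ℂ => v 0 - a) univ := fun v _ =>
      ((ContinuousLinearMap.proj (R := ℂ) (φ := fun _ : Fin 1 => ℂ) 0).analyticAt v).sub analyticAt_const
    convert h𝒟.zero 1 (fun v => v 0 - a) h1 using 1
    ext v
    simp [sub_eq_zero]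
  have hempty : (∅ : Set (Fin 1 → ℂ)) ∈ 𝒟 1 := by
    convert h𝒟.zero 1 (fun _ => 1) (fun _ _ => analyticAt_const) using 1
    ext v
    simp
  rcases Z.eq_empty_or_nonempty with rfl | hne
  · convert hempty using 1
    ext v
    simp
  · obtain ⟨f, hf⟩ := hZ.exists_eq_range hne
    convert h𝒟.iUnion 1 (fun i => {v : Fin 1 → ℂ | v 0 = f i}) (fun i => h0 (f i)) using 1
    ext v
    simp only [hf, mem_range, mem_iUnion, mem_ofPred_eq]
    exact ⟨fun ⟨i, hi⟩ => ⟨i, hi.symm⟩, fun ⟨i, hi⟩ => ⟨i, hi.symm⟩⟩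

/-- (1) The sets in the least closed family are Borel sets with countable or cocountable traces on all analytic
curves. (2) In particular every set of complex numbers in the least closed family is countable or cocountable.
(3) Every countable set of complex numbers is in the least closed family, so for a closed countable set `Z` of complex
numbers and a function `g` analytic outside `Z` (the Gamma function, the zeta function, ...) the set `{s ∉ Z : g s ∈ X}`
is in the family for all `X` in the family. -/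
theorem result :
    (∀ (m : ℕ) (X : Set (Fin m → ℂ)),
      (∀ 𝒟 : (m : ℕ) → Set (Set (Fin m → ℂ)), Closed 𝒟 → X ∈ 𝒟 m) →
      MeasurableSet X ∧ ∀ U : Set ℂ, IsOpen U → IsPreconnected U →
        ∀ γ : ℂ → (Fin m → ℂ), AnalyticOnNhd ℂ γ U →
          {t | t ∈ U ∧ γ t ∈ X}.Countable ∨ {t | t ∈ U ∧ γ t ∉ X}.Countable) ∧
    (∀ X : Set ℂ,
      (∀ 𝒟 : (m : ℕ) → Set (Set (Fin m → ℂ)), Closed 𝒟 → {v : Fin 1 → ℂ | v 0 ∈ X} ∈ 𝒟 1) →
      X.Countable ∨ Xᶜ.Countable) ∧
    ∀ 𝒟 : (m : ℕ) → Set (Set (Fin m → ℂ)), Closed 𝒟 → ∀ Z : Set ℂ, Z.Countable →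
      {v : Fin 1 → ℂ | v 0 ∈ Z} ∈ 𝒟 1 ∧ (IsClosed Z → ∀ g : ℂ → ℂ, AnalyticOnNhd ℂ g Zᶜ →
        ∀ X : Set ℂ, {v : Fin 1 → ℂ | v 0 ∈ X} ∈ 𝒟 1 →
          {v : Fin 1 → ℂ | v 0 ∉ Z ∧ g (v 0) ∈ X} ∈ 𝒟 1) := by
  refine ⟨?_, ?_, ?_⟩
  · intro m X hX
    have h1 : CQ m X ∧ MeasurableSet X := hX _ closed_CQ
    exact ⟨h1.2, h1.1⟩
  · intro X hX
    have h1 : CQ 1 {v : Fin 1 → ℂ | v 0 ∈ X} ∧ MeasurableSet {v : Fin 1 → ℂ | v 0 ∈ X} :=
      hX _ closed_CQ
    exact h1.1.qm
  · intro 𝒟 h𝒟 Z hZ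
    refine ⟨countable_mem h𝒟 hZ, fun hZc g hg X hX => ?_⟩
    have hZc' : IsClosed {v : Fin 1 → ℂ | v 0 ∈ Z} := hZc.preimage (continuous_apply 0)
    have hg' : AnalyticOnNhd ℂ (fun v : Fin 1 → ℂ => (fun _ : Fin 1 => g (v 0))) {v : Fin 1 → ℂ | v 0 ∈ Z}ᶜ := by
      intro v hv
      have h1 : AnalyticAt ℂ (fun w : Fin 1 → ℂ => g (w 0)) v :=
        AnalyticAt.comp (g := g) (f := fun w : Fin 1 → ℂ => w 0) (x := v) (hg (v 0) hv)
          ((ContinuousLinearMap.proj (R := ℂ) (φ := fun _ : Fin 1 => ℂ) 0).analyticAt v)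
      exact AnalyticAt.pi fun _ => h1
    exact h𝒟.partialPreimage 1 1 _ hZc' (countable_mem h𝒟 hZ) _ hg' _ hX

end Pool.Agent.Results.MP_a12702_lc.PartialAnalyticMaps
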