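import Pool.Agent.Results.MP_a12702_lc.PartialAnalyticMaps

/-!
# Quasiminimality in several variables: a zero-one law for all products of continuous measures

For a Borel set `X` of complex numbers countable or cocountable means: either `X` is a null set for all
continuous (atomless) measures, or its complement is. We prove this alternative for the sets `X ⊆ ℂ ^ m`, for all `m`, of
the family of `PartialAnalyticMaps` (zero sets of entire functions, Boolean operations, preimages under analytic maps
with singularities, guarded quantifiers, quantifiers for uncountably many `x`, ...): either `X` is a null set for all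
products `μ_1 × ... × μ_m` of σ-finite continuous Borel measures on the complex numbers, or its complement is. So there is
one generic type of `m`-tuples, whatever the measures are; for instance `X` or its complement has Lebesgue measure `0`.

Proof by induction on `m`: all sections of `X` in the last variable are countable or cocountable, and the set of the
`s ∈ ℂ ^ (m - 1)` with an uncountable section is again in the family (curve-regular and Borel,
`Pool.Agent.Y566.GQ.CQ_unc`); Fubini's theorem.
-/

set_option autoImplicit false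

namespace Pool.Agent.Results.MP_a12702_lc.ProductMeasures

open Set Cardinal MeasureTheory Topology Pool.Agent.TH735.QM Pool.Agent.TH735.FO Pool.Agent.Y566.GQ
open Pool.Agent.Results.MP_a12702_lc.PartialAnalyticMaps (Closed closed_CQ)

/-- `X` is a null set for all products of `m` σ-finite measures without atoms. -/
def Small (m : ℕ) (X : Set (Fin m → ℂ)) : Prop :=
  ∀ (μ : Fin m → Measure ℂ) [∀ i, SigmaFinite (μ i)], (∀ i x, μ i {x} = 0) → Measure.pi μ X = 0

/-- the induction step -/
lemma small_succ {m : ℕ} {X : Set (Fin (m + 1) → ℂ)} (hXm : MeasurableSet X) {S : Set (Fin m → ℂ)}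
    (hS : Small m S) (h : ∀ s, s ∉ S → (Sec X s).Countable) : Small (m + 1) X := by
  intro μ hμ hμ0
  have e := measurePreserving_piFinSuccAbove μ (Fin.last m)
  set F := MeasurableEquiv.piFinSuccAbove (fun _ : Fin (m + 1) => ℂ) (Fin.last m) with hF
  have hYm : MeasurableSet (F.symm ⁻¹' X) := F.symm.measurable hXm
  have h1 : Measure.pi μ X =
      ((μ (Fin.last m)).prod (Measure.pi fun j => μ ((Fin.last m).succAbove j))) (F.symm ⁻¹' X) := by
    have h2 := e.measure_preimage hYm.nullMeasurableSet
    rw [← h2]
    congr 1
    ext v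
    simp
  rw [h1, Measure.prod_apply_symm hYm]
  have h3 : Measure.pi (fun j => μ ((Fin.last m).succAbove j)) S = 0 := hS _ fun j x => hμ0 _ x
  have h4 : ∀ᵐ s ∂(Measure.pi fun j => μ ((Fin.last m).succAbove j)), s ∉ S :=
    measure_eq_zero_iff_ae_notMem.1 h3
  have h5 : ∀ᵐ s ∂(Measure.pi fun j => μ ((Fin.last m).succAbove j)),
      μ (Fin.last m) ((fun x => (x, s)) ⁻¹' (F.symm ⁻¹' X)) = 0 := by
    filter_upwards [h4] with s hs
    have h6 : (fun x => (x, s)) ⁻¹' (F.symm ⁻¹' X) = Sec X s := by
      ext x
      have h7 : F.symm (x, s) = (Fin.snoc (α := fun _ => ℂ) s x : Fin (m + 1) → ℂ) :=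
        Fin.insertNth_last' x s
      show F.symm (x, s) ∈ X ↔ (Fin.snoc (α := fun _ => ℂ) s x : Fin (m + 1) → ℂ) ∈ X
      rw [h7]
    rw [h6]
    have : NullSingletonClass (μ (Fin.last m)) := ⟨hμ0 (Fin.last m)⟩
    exact (h s hs).measure_zero _
  rw [lintegral_congr_ae h5, lintegral_zero]

/-- the sections are countable or cocountable -/
lemma sec_qm {m : ℕ} {X : Set (Fin (m + 1) → ℂ)} (hX : CQ (m + 1) X) (s : Fin m → ℂ) :
    (Sec X s).Countable ∨ (Sec X s)ᶜ.Countable := by
  have h := hX univ isOpen_univ isPreconnected_univ
    (fun t => (Fin.snoc (α := fun _ => ℂ) s t : Fin (m + 1) → ℂ))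
    (analytic_snoc analyticOnNhd_const analyticOnNhd_id)
  rcases h with h | h
  · left
    rw [univ_inter] at h
    exact h
  · right
    refine h.mono ?_
    intro x hx
    exact ⟨mem_univ x, hx⟩

theorem dichotomy (m : ℕ) : ∀ X : Set (Fin m → ℂ), CQ m X → MeasurableSet X → Small m X ∨ Small m Xᶜ := by
  induction m with
  | zero =>
    intro X _ _
    rcases X.eq_empty_or_nonempty with rfl | hne
    · left
      intro μ _ _
      exact measure_empty
    · right
      intro μ _ _
      rw [Subsingleton.eq_univ_of_nonempty hne, compl_univ]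
      exact measure_empty
  | succ m ih =>
    intro X hX hXm
    rcases ih {s | ¬ (Sec X s).Countable} (CQ_unc hX hXm) (meas_unc hX hXm) with h | h
    · left
      refine small_succ hXm h fun s hs => ?_
      by_contra hcon
      exact hs hcon
    · right
      refine small_succ hXm.compl h fun s hs => ?_
      rcases sec_qm hX s with h1 | h1
      · exact absurd (fun h2 => h2 h1 : s ∈ {s | ¬ (Sec X s).Countable}ᶜ) hs
      · exact h1

/-- For `m = 1` and Borel sets: null for all measures without atoms means countable. -/
theorem small_one {X : Set ℂ} (hX : MeasurableSet X) : Small 1 {v : Fin 1 → ℂ | v 0 ∈ X} ↔ X.Countable := by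
  constructor
  · intro h
    by_contra hc
    obtain ⟨μ, hf, hs, hu, hc'⟩ := exists_atomless hX hc
    have h1 := h (fun _ => μ) (fun _ x => hc' {x} (countable_singleton x))
    have e := measurePreserving_funUnique μ (Fin 1)
    have h2 : Measure.pi (fun _ : Fin 1 => μ) {v : Fin 1 → ℂ | v 0 ∈ X} = μ X :=
      e.measure_preimage hX.nullMeasurableSet
    rw [h2] at h1
    have h3 : μ univ = 0 := by
      rw [← union_compl_self X]
      exact measure_union_null h1 hs
    exact hu h3
  · intro h μ _ hμ0
    have hμ : μ = fun _ => μ 0 := by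
      funext i
      rw [Subsingleton.elim i 0]
    have e := measurePreserving_funUnique (μ 0) (Fin 1)
    have h2 : Measure.pi (fun _ : Fin 1 => μ 0) {v : Fin 1 → ℂ | v 0 ∈ X} = μ 0 X :=
      e.measure_preimage hX.nullMeasurableSet
    have h3 : NullSingletonClass (μ 0) := ⟨hμ0 0⟩
    have h4 : Measure.pi μ {v : Fin 1 → ℂ | v 0 ∈ X} =
        Measure.pi (fun _ : Fin 1 => μ 0) {v : Fin 1 → ℂ | v 0 ∈ X} := by
      congr 1
      congr 1
    rw [h4, h2]
    exact h.measure_zero _

/-- (1) Let `X ⊆ ℂ ^ m` be a set of the least family which is closed in the sense of `PartialAnalyticMaps.Closed`. Then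
`X` is a Borel set, and exactly one of `X` and its complement is a null set for all products `μ_1 × ... × μ_m` of σ-finite
Borel measures without atoms on the complex numbers. In particular `X` or its complement has Lebesgue measure `0`.
(2) For `m = 1` and all Borel sets `X` of complex numbers null for all these measures means countable. -/
theorem result : (∀ (m : ℕ) (X : Set (Fin m → ℂ)),
    (∀ 𝒟 : (m : ℕ) → Set (Set (Fin m → ℂ)), Closed 𝒟 → X ∈ 𝒟 m) →
    MeasurableSet X ∧ (Small m X ∨ Small m Xᶜ) ∧ ¬ (Small m X ∧ Small m Xᶜ) ∧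
      (volume X = 0 ∨ volume Xᶜ = 0)) ∧
    ∀ X : Set ℂ, MeasurableSet X → (Small 1 {v : Fin 1 → ℂ | v 0 ∈ X} ↔ X.Countable) := by
  refine ⟨fun m X hX => ?_, fun X hX => small_one hX⟩
  have h1 : CQ m X ∧ MeasurableSet X := hX _ closed_CQ
  have h2 := dichotomy m X h1.1 h1.2
  have h0 : ∀ i : Fin m, ∀ x : ℂ, (volume : Measure ℂ) {x} = 0 := fun _ x => measure_singleton x
  refine ⟨h1.2, h2, ?_, ?_⟩
  · rintro ⟨h3, h4⟩
    have h5 : volume X = 0 := h3 (fun _ => volume) h0
    have h6 : volume Xᶜ = 0 := h4 (fun _ => volume) h0
    have h7 : volume (univ : Set (Fin m → ℂ)) = 0 := by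
      rw [← union_compl_self X]
      exact measure_union_null h5 h6
    exact (isOpen_univ.measure_pos (volume : Measure (Fin m → ℂ)) univ_nonempty).ne' h7
  · rcases h2 with h3 | h3
    · exact Or.inl (h3 (fun _ => volume) h0)
    · exact Or.inr (h3 (fun _ => volume) h0)

end Pool.Agent.Results.MP_a12702_lc.ProductMeasures
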